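import Pool.Agent.U590.JO.Seq

/-!
# The germ `(y ^ 4, y ^ 2 z, x ^ 2 y ^ 4 z)` of `ℂ³`
-/

open scoped ContDiff

namespace Pool.Agent.U590.JO

/-- the map `(x, y, z) ↦ (y ^ 4, y ^ 2 z, x ^ 2 y ^ 4 z)` -/
def F (z : Fin 3 → ℂ) : Fin 3 → ℂ := ![z 1 ^ 4, z 1 ^ 2 * z 2, z 0 ^ 2 * z 1 ^ 4 * z 2]

@[simp] lemma F_0 (z : Fin 3 → ℂ) : F z 0 = z 1 ^ 4 := rfl
@[simp] lemma F_1 (z : Fin 3 → ℂ) : F z 1 = z 1 ^ 2 * z 2 := rfl
@[simp] lemma F_2 (z : Fin 3 → ℂ) : F z 2 = z 0 ^ 2 * z 1 ^ 4 * z 2 := rfl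

lemma F_contDiff {n : WithTop ℕ∞} : ContDiff ℂ n F := by
  rw [contDiff_pi]
  intro i
  fin_cases i
  · show ContDiff ℂ n fun z : Fin 3 → ℂ => z 1 ^ 4
    fun_prop
  · show ContDiff ℂ n fun z : Fin 3 → ℂ => z 1 ^ 2 * z 2
    fun_prop
  · show ContDiff ℂ n fun z : Fin 3 → ℂ => z 0 ^ 2 * z 1 ^ 4 * z 2
    fun_prop

lemma iter_contDiff {n : WithTop ℕ∞} (k : ℕ) : ContDiff ℂ n (F^[k]) := by
  induction k with
  | zero => exact contDiff_id
  | succ k ih => rw [Function.iterate_succ']; exact F_contDiff.comp ih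

lemma F_zero : F 0 = 0 := by
  funext i; fin_cases i <;> simp [F]

/-- the weights -/
def r (k : ℕ) : Fin 3 → ℕ := ![a k, b k, c k]

lemma iter_smul (k : ℕ) (t : ℂ) (z : Fin 3 → ℂ) (i : Fin 3) :
    (F^[k]) (t • z) i = t ^ (r k i) * (F^[k]) z i := by
  induction k generalizing i with
  | zero =>
    have : r 0 i = 1 := by fin_cases i <;> rfl
    simp [this]
  | succ k ih =>
    rw [Function.iterate_succ_apply', Function.iterate_succ_apply']
    have h0 := ih 0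
    have h1 := ih 1
    have h2 := ih 2
    have r0 : r k 0 = a k := rfl
    have r1 : r k 1 = b k := rfl
    have r2 : r k 2 = c k := rfl
    rw [r0] at h0
    rw [r1] at h1
    rw [r2] at h2
    fin_cases i
    · show F _ 0 = t ^ (a (k + 1)) * F _ 0
      rw [F_0, F_0, h1, a_succ]; ring
    · show F _ 1 = t ^ (b (k + 1)) * F _ 1
      rw [F_1, F_1, h1, h2, b_succ]; ring
    · show F _ 2 = t ^ (c (k + 1)) * F _ 2
      rw [F_2, F_2, h0, h1, h2, c_succ]; ring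

lemma F_one : F (fun _ => 1) = fun _ => 1 := by
  funext i; fin_cases i <;> simp [F]

lemma iter_one (k : ℕ) : (F^[k]) (fun _ => 1) = fun _ => 1 := by
  induction k with
  | zero => rfl
  | succ k ih => rw [Function.iterate_succ_apply', ih, F_one]

/-- components of the iterated derivative -/
lemma comp_deriv (k m : ℕ) (i : Fin 3) (x : Fin 3 → ℂ) (v : Fin m → (Fin 3 → ℂ)) :
    iteratedFDeriv ℂ m (F^[k]) x v i = iteratedFDeriv ℂ m (fun z => (F^[k]) z i) x v := by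
  have h := (ContinuousLinearMap.proj (R := ℂ) (φ := fun _ : Fin 3 => ℂ) i).iteratedFDeriv_comp_left
    ((iter_contDiff (n := ∞) k).contDiffAt (x := x)) (i := m) (by exact_mod_cast le_top)
  have h2 := congrArg (fun A => A v) h
  exact h2.symm

lemma deriv_zero_of_ne (k m : ℕ) (i : Fin 3) (hm : m ≠ r k i) (v : Fin m → (Fin 3 → ℂ)) :
    iteratedFDeriv ℂ m (fun z => (F^[k]) z i) 0 v = 0 := by
  set g : (Fin 3 → ℂ) → ℂ := fun z => (F^[k]) z i with hg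
  have hgc : ContDiff ℂ ∞ g := (contDiff_pi.1 (iter_contDiff k)) i
  have h1 := (((2 : ℂ) • ContinuousLinearMap.id ℂ (Fin 3 → ℂ))).iteratedFDeriv_comp_right hgc 0
    (i := m) (by exact_mod_cast le_top)
  have h2 : g ∘ ((2 : ℂ) • ContinuousLinearMap.id ℂ (Fin 3 → ℂ)) =
      (((2 : ℂ) ^ (r k i)) • ContinuousLinearMap.id ℂ ℂ) ∘ g := by
    funext z
    simp only [Function.comp, hg, ContinuousLinearMap.smul_apply, ContinuousLinearMap.id_apply,
      smul_eq_mul]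
    exact iter_smul k 2 z i
  have h3 := (((2 : ℂ) ^ (r k i)) • ContinuousLinearMap.id ℂ ℂ).iteratedFDeriv_comp_left
    (hgc.contDiffAt (x := (0 : Fin 3 → ℂ))) (i := m) (by exact_mod_cast le_top)
  rw [h2, h3] at h1
  have h4 := congrArg (fun A => A v) h1
  simp only [ContinuousLinearMap.compContinuousMultilinearMap_coe, Function.comp,
    ContinuousMultilinearMap.compContinuousLinearMap_apply, ContinuousLinearMap.smul_apply,
    ContinuousLinearMap.id_apply, smul_eq_mul, smul_zero, map_zero] at h4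
  rw [ContinuousMultilinearMap.map_smul_univ] at h4
  simp only [Finset.prod_const, Finset.card_univ, Fintype.card_fin, smul_eq_mul] at h4
  have h5 : ((2 : ℂ) ^ (r k i) - 2 ^ m) * iteratedFDeriv ℂ m g 0 v = 0 := by
    rw [sub_mul, h4, sub_self]
  rcases mul_eq_zero.1 h5 with h6 | h6
  · exfalso
    rw [sub_eq_zero] at h6
    have h7 : (2 : ℕ) ^ (r k i) = 2 ^ m := by exact_mod_cast h6
    exact hm (Nat.pow_right_injective le_rfl h7).symm
  · exact h6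

lemma deriv_ne_zero (k : ℕ) (i : Fin 3) :
    iteratedFDeriv ℂ (r k i) (fun z => (F^[k]) z i) 0 (fun _ => fun _ => 1) ≠ 0 := by
  set g : (Fin 3 → ℂ) → ℂ := fun z => (F^[k]) z i with hg
  have hgc : ContDiff ℂ ∞ g := (contDiff_pi.1 (iter_contDiff k)) i
  set L : ℂ →L[ℂ] (Fin 3 → ℂ) := (ContinuousLinearMap.id ℂ ℂ).smulRight (fun _ => 1) with hL
  have hL1 : ∀ t : ℂ, L t = t • (fun _ => (1 : ℂ)) := fun t => rfl
  have h1 := L.iteratedFDeriv_comp_right hgc 0 (i := r k i) (by exact_mod_cast le_top)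
  have h2 : g ∘ L = fun t : ℂ => t ^ (r k i) := by
    funext t
    simp only [Function.comp, hg, hL1]
    rw [iter_smul, iter_one]
    simp
  rw [h2] at h1
  have h4 := congrArg (fun A => A (fun _ => (1 : ℂ))) h1
  simp only [ContinuousMultilinearMap.compContinuousLinearMap_apply, map_zero] at h4
  have h5 : (fun _ : Fin (r k i) => L 1) = fun _ => fun _ => (1 : ℂ) := by
    funext j; rw [hL1, one_smul]
  rw [h5, ← iteratedDeriv_eq_iteratedFDeriv, iteratedDeriv_fun_pow_zero] at h4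
  rw [← h4]
  simp [Nat.factorial_ne_zero]

lemma order_eq (k : ℕ) : sInf {m : ℕ | iteratedFDeriv ℂ m (F^[k]) 0 ≠ 0} = cm k := by
  have hmem : ∀ i : Fin 3, r k i ∈ {m : ℕ | iteratedFDeriv ℂ m (F^[k]) 0 ≠ 0} := by
    intro i h
    apply deriv_ne_zero k i
    rw [← comp_deriv, h]
    rfl
  have hcm : cm k ∈ {m : ℕ | iteratedFDeriv ℂ m (F^[k]) 0 ≠ 0} := by
    rcases le_total (a k) (b k) with h | h
    · rw [cm, min_eq_left h]; exact hmem 0
    · rw [cm, min_eq_right h]; exact hmem 1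
  refine le_antisymm (Nat.sInf_le hcm) (le_csInf ⟨_, hcm⟩ ?_)
  intro m hm
  by_contra hlt
  push Not at hlt
  apply hm
  ext v i
  rw [comp_deriv]
  refine deriv_zero_of_ne k m i ?_ v
  have h1 : cm k ≤ a k := min_le_left _ _
  have h2 : cm k ≤ b k := min_le_right _ _
  have h3 := a_le_c k
  fin_cases i
  · show m ≠ a k; omega
  · show m ≠ b k; omega
  · show m ≠ c k; omega

lemma F_det_zero : (fderiv ℂ F 0).det = 0 := by
  have h : fderiv ℂ F 0 = 0 := by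
    ext v i
    have h1 : iteratedFDeriv ℂ 1 (F^[1]) 0 (fun _ => v) i = 0 := by
      rw [comp_deriv]
      refine deriv_zero_of_ne 1 1 i ?_ _
      fin_cases i
      · show 1 ≠ a 1; decide
      · show 1 ≠ b 1; decide
      · show 1 ≠ c 1; decide
    rw [Function.iterate_one, iteratedFDeriv_one_apply] at h1
    exact h1
  rw [h]
  show LinearMap.det ((0 : (Fin 3 → ℂ) →L[ℂ] (Fin 3 → ℂ)) : (Fin 3 → ℂ) →ₗ[ℂ] (Fin 3 → ℂ)) = 0
  rw [ContinuousLinearMap.toLinearMap_zero]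
  exact LinearMap.det_zero' (Pi.basisFun ℂ (Fin 3))

/-- the Jacobian matrix at `(t, t, t)` -/
def J (t : ℂ) : Matrix (Fin 3) (Fin 3) ℂ :=
  !![0, 4 * t ^ 3, 0; 0, 2 * t ^ 2, t ^ 2; 2 * t ^ 6, 4 * t ^ 6, t ^ 6]

lemma hasFDerivAt_F (t : ℂ) :
    HasFDerivAt F (LinearMap.toContinuousLinearMap (Matrix.toLin' (J t))) (fun _ => t) := by
  rw [hasFDerivAt_pi']
  intro i
  have p : ∀ j : Fin 3, HasFDerivAt (fun z : Fin 3 → ℂ => z j)
      (ContinuousLinearMap.proj (R := ℂ) (φ := fun _ : Fin 3 => ℂ) j) (fun _ => t) := fun j =>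
    (ContinuousLinearMap.proj (R := ℂ) (φ := fun _ : Fin 3 => ℂ) j).hasFDerivAt
  fin_cases i
  · have h := (p 1).pow 4
    refine h.congr_fderiv ?_
    ext v
    simp [J, dotProduct, Fin.sum_univ_three]
  · have h := ((p 1).pow 2).mul (p 2)
    refine h.congr_fderiv ?_
    ext v
    simp [J, dotProduct, Fin.sum_univ_three]
    ring
  · have h := (((p 0).pow 2).mul ((p 1).pow 4)).mul (p 2)
    refine h.congr_fderiv ?_
    ext v
    simp [J, dotProduct, Fin.sum_univ_three]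
    ring

lemma F_dominant (ε : ℝ) (hε : 0 < ε) : ∃ z : Fin 3 → ℂ, ‖z‖ < ε ∧ (fderiv ℂ F z).det ≠ 0 := by
  refine ⟨fun _ => ((ε / 2 : ℝ) : ℂ), ?_, ?_⟩
  · rw [pi_norm_lt_iff hε]
    intro i
    rw [Complex.norm_real, Real.norm_eq_abs, abs_of_pos (by positivity)]
    linarith
  · rw [(hasFDerivAt_F _).fderiv]
    show LinearMap.det (Matrix.toLin' (J _)) ≠ 0
    rw [LinearMap.det_toLin', J, Matrix.det_fin_three]
    have ht : ((ε / 2 : ℝ) : ℂ) ≠ 0 := by exact_mod_cast (by positivity : ε / 2 ≠ 0)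
    simp only [Matrix.of_apply, Matrix.cons_val', Matrix.cons_val_zero, Matrix.cons_val_one,
      Matrix.cons_val, Matrix.cons_val_fin_one]
    have e : (0 : ℂ) * (2 * ((ε / 2 : ℝ) : ℂ) ^ 2) * ((ε / 2 : ℝ) : ℂ) ^ 6 -
        0 * ((ε / 2 : ℝ) : ℂ) ^ 2 * (4 * ((ε / 2 : ℝ) : ℂ) ^ 6) -
        4 * ((ε / 2 : ℝ) : ℂ) ^ 3 * 0 * ((ε / 2 : ℝ) : ℂ) ^ 6 +
        4 * ((ε / 2 : ℝ) : ℂ) ^ 3 * ((ε / 2 : ℝ) : ℂ) ^ 2 * (2 * ((ε / 2 : ℝ) : ℂ) ^ 6) +
        0 * 0 * (4 * ((ε / 2 : ℝ) : ℂ) ^ 6) - 0 * (2 * ((ε / 2 : ℝ) : ℂ) ^ 2) *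
        (2 * ((ε / 2 : ℝ) : ℂ) ^ 6) = 8 * ((ε / 2 : ℝ) : ℂ) ^ 11 := by ring
    rw [e]
    exact mul_ne_zero (by norm_num) (pow_ne_zero _ ht)

/-- the counterexample -/
theorem main : ¬ (∀ (n : ℕ) (f : (Fin n → ℂ) → (Fin n → ℂ)),
      AnalyticAt ℂ f 0 → f 0 = 0 →
      (fderiv ℂ f 0).det = 0 →
      (∀ ε : ℝ, 0 < ε → ∃ z : Fin n → ℂ, ‖z‖ < ε ∧ (fderiv ℂ f z).det ≠ 0) →
      ∃ (d : ℕ) (a : Fin d → ℤ) (K : ℕ), ∀ k : ℕ, K ≤ k →
        ((sInf {m : ℕ | iteratedFDeriv ℂ m (f^[k + d]) 0 ≠ 0} : ℕ) : ℤ) =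
          ∑ i : Fin d, a i *
            ((sInf {m : ℕ | iteratedFDeriv ℂ m (f^[k + (i : ℕ)]) 0 ≠ 0} : ℕ) : ℤ)) := by
  intro H
  obtain ⟨D, co, K, h⟩ := H 3 F
    ((F_contDiff (n := ω)).contDiffAt.analyticAt) F_zero F_det_zero F_dominant
  refine no_recursion D co K fun k hk => ?_
  have := h k hk
  simp only [order_eq] at this
  exact this

end Pool.Agent.U590.JO
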