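import Mathlib

/-!
# A sequence of minima without linear recursion

`(a, b, c)(k+1) = (4 b, 2 b + c, 2 a + 4 b + c)`, `(a, b, c)(0) = (1, 1, 1)`: the sequence
`min (a k) (b k)` satisfies no linear recursion with integer coefficients.
-/

namespace Pool.Agent.U590.JO

open Finset

/-- the exponents -/
def abc : ℕ → ℕ × ℕ × ℕ
  | 0 => (1, 1, 1)
  | k + 1 => (4 * (abc k).2.1, 2 * (abc k).2.1 + (abc k).2.2,
      2 * (abc k).1 + 4 * (abc k).2.1 + (abc k).2.2)

/-- first exponent -/
def a (k : ℕ) : ℕ := (abc k).1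
/-- second exponent -/
def b (k : ℕ) : ℕ := (abc k).2.1
/-- third exponent -/
def c (k : ℕ) : ℕ := (abc k).2.2

lemma a_zero : a 0 = 1 := rfl
lemma b_zero : b 0 = 1 := rfl
lemma c_zero : c 0 = 1 := rfl
lemma a_succ (k : ℕ) : a (k + 1) = 4 * b k := rfl
lemma b_succ (k : ℕ) : b (k + 1) = 2 * b k + c k := rfl
lemma c_succ (k : ℕ) : c (k + 1) = 2 * a k + 4 * b k + c k := rfl

lemma c_odd (k : ℕ) : c k % 2 = 1 := by
  induction k with
  | zero => rfl
  | succ k ih => rw [c_succ]; omega

lemma a_even (k : ℕ) : a (k + 1) % 2 = 0 := by rw [a_succ]; omega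

lemma b_odd (k : ℕ) : b (k + 1) % 2 = 1 := by
  rw [b_succ]; have := c_odd k; omega

lemma a_le_c (k : ℕ) : a k ≤ c k := by
  cases k with
  | zero => exact le_rfl
  | succ k => rw [a_succ, c_succ]; omega

lemma b_le_c (k : ℕ) : b k ≤ c k := by
  cases k with
  | zero => exact le_rfl
  | succ k => rw [b_succ, c_succ]; omega

/-- the difference -/
def d (k : ℕ) : ℤ := (a k : ℤ) - b k

lemma d_rec (k : ℕ) : d (k + 2) = -d (k + 1) - 2 * d k := by
  simp only [d, a_succ, b_succ, c_succ]
  push_cast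
  ring

lemma d_zero : d 0 = 0 := rfl
lemma d_one : d 1 = 1 := rfl

lemma d_odd (k : ℕ) : d (k + 1) % 2 = 1 := by
  have h1 := a_even k
  have h2 := b_odd k
  simp only [d]
  omega

lemma d_ne (k : ℕ) : d (k + 1) ≠ 0 := by
  intro h; have := d_odd k; rw [h] at this; simp at this

/-- a real sequence with complex characteristic roots is not positive -/
lemma no_pos {x : ℕ → ℝ} {T N : ℝ} (hTN : T ^ 2 < 4 * N) (hx : ∀ j, x (j + 2) = T * x (j + 1) - N * x j)
    (hpos : ∀ j, 0 < x j) : False := by
  set y : ℕ → ℝ := fun j => x (j + 1) / x j with hy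
  have hy0 : ∀ j, 0 < y j := fun j => div_pos (hpos _) (hpos _)
  have hrec : ∀ j, y (j + 1) * y j = T * y j - N := by
    intro j
    have h1 := (hpos j).ne'
    have h2 := (hpos (j + 1)).ne'
    simp only [hy]
    rw [show j + 1 + 1 = j + 2 from rfl, hx]
    field_simp
  set δ : ℝ := N - T ^ 2 / 4 with hδ
  have hδ0 : 0 < δ := by rw [hδ]; linarith
  have hstep : ∀ j, y (j + 1) * y j ≤ y j * y j - δ := by
    intro j
    rw [hrec, hδ]
    nlinarith [sq_nonneg (y j - T / 2)]
  have hdec : ∀ j, y (j + 1) < y j := by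
    intro j
    by_contra h
    push Not at h
    have := mul_le_mul_of_nonneg_right h (hy0 j).le
    have := hstep j
    linarith
  have hle : ∀ j, y j ≤ y 0 := by
    intro j
    induction j with
    | zero => exact le_rfl
    | succ j ih => exact (hdec j).le.trans ih
  have hstep2 : ∀ j, y (j + 1) ≤ y j - δ / y 0 := by
    intro j
    have h1 := hstep j
    have h2 : y (j + 1) ≤ y j - δ / y j := by
      rw [le_sub_iff_add_le, ← sub_nonneg]
      have : y j - (y (j + 1) + δ / y j) = (y j * y j - δ - y (j + 1) * y j) / y j := by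
        have := (hy0 j).ne'
        field_simp
        ring
      rw [this]
      exact div_nonneg (by linarith) (hy0 j).le
    have h3 : δ / y 0 ≤ δ / y j := div_le_div_of_nonneg_left hδ0.le (hy0 j) (hle j)
    linarith
  have hlin : ∀ j : ℕ, y j ≤ y 0 - j * (δ / y 0) := by
    intro j
    induction j with
    | zero => simp
    | succ j ih =>
      have := hstep2 j
      push_cast
      linarith
  have hε : 0 < δ / y 0 := div_pos hδ0 (hy0 0)
  obtain ⟨j, hj⟩ := exists_nat_gt (y 0 / (δ / y 0))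
  rw [div_lt_iff₀ hε] at hj
  have h1 := hlin j
  have h2 := hy0 j
  linarith

/-- the complex root of `x ^ 2 + x + 2` -/
noncomputable def μ : ℂ := ⟨-(1 / 2), Real.sqrt 7 / 2⟩

lemma μ_sq : μ ^ 2 = -μ - 2 := by
  have h7 : Real.sqrt 7 * Real.sqrt 7 = 7 := Real.mul_self_sqrt (by norm_num)
  rw [pow_two]
  apply Complex.ext
  · simp only [μ, Complex.mul_re, Complex.sub_re, Complex.neg_re, Complex.re_ofNat]
    linarith
  · simp only [μ, Complex.mul_im, Complex.sub_im, Complex.neg_im, Complex.im_ofNat]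
    ring

lemma im_pow (k : ℕ) : (μ ^ k).im = Real.sqrt 7 / 2 * d k := by
  have key : (μ ^ k).im = Real.sqrt 7 / 2 * d k ∧ (μ ^ (k + 1)).im = Real.sqrt 7 / 2 * d (k + 1) := by
    induction k with
    | zero => simp [d_zero, d_one, μ]
    | succ k ih =>
      refine ⟨ih.2, ?_⟩
      have h1 : μ ^ (k + 1 + 1) = -μ ^ (k + 1) - 2 * μ ^ k := by
        rw [show k + 1 + 1 = k + 2 from rfl, pow_add, μ_sq]; ring
      have h2 : (2 * μ ^ k).im = 2 * (μ ^ k).im := by simp
      rw [h1, Complex.sub_im, Complex.neg_im, h2, ih.1, ih.2, show k + 1 + 1 = k + 2 from rfl, d_rec]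
      push_cast
      ring
  exact key.1

/-- the sign of `d` is not constant on a progression -/
lemma no_const_sign {s : ℝ} (i P : ℕ) (hP : 0 < P)
    (h : ∀ j, 0 < s * (d (i + P * j) : ℝ)) : False := by
  set q : ℂ := μ ^ P with hq
  set w : ℂ := μ ^ i with hw
  have h7 : 0 < Real.sqrt 7 / 2 := by positivity
  have hz : ∀ j, (w * q ^ j).im = Real.sqrt 7 / 2 * d (i + P * j) := by
    intro j
    rw [hw, hq, ← pow_mul, ← pow_add, im_pow]
  have hqim : q.im ≠ 0 := by
    obtain ⟨P', rfl⟩ : ∃ P', P = P' + 1 := ⟨P - 1, by omega⟩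
    rw [hq, im_pow]
    exact mul_ne_zero h7.ne' (by exact_mod_cast d_ne P')
  have hq2 : q ^ 2 = (2 * q.re : ℝ) * q - (q.re ^ 2 + q.im ^ 2 : ℝ) := by
    rw [pow_two]
    apply Complex.ext
    · rw [Complex.sub_re, Complex.re_ofReal_mul, Complex.ofReal_re, Complex.mul_re]; ring
    · rw [Complex.sub_im, Complex.im_ofReal_mul, Complex.ofReal_im, Complex.mul_im]; ring
  refine no_pos (x := fun j => s * (w * q ^ j).im) (T := 2 * q.re) (N := q.re ^ 2 + q.im ^ 2) ?_ ?_ ?_
  · have : 0 < q.im ^ 2 := by positivity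
    nlinarith
  · intro j
    have h1 : w * q ^ (j + 2) = (2 * q.re : ℝ) * (w * q ^ (j + 1)) -
        (q.re ^ 2 + q.im ^ 2 : ℝ) * (w * q ^ j) := by
      rw [pow_add, hq2]; ring
    simp only [h1, Complex.sub_im, Complex.im_ofReal_mul]
    ring
  · intro j
    simp only [hz]
    have := mul_pos h7 (h j)
    linarith

/-- the order of the iterates -/
def cm (k : ℕ) : ℕ := min (a k) (b k)

lemma cm_parity (k : ℕ) : (cm (k + 1) % 2 = 1 ↔ 0 < d (k + 1)) := by
  have h1 := a_even k
  have h2 := b_odd k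
  have h3 := d_ne k
  simp only [cm, d] at *
  rcases le_total (a (k + 1)) (b (k + 1)) with h | h
  · rw [min_eq_left h]
    constructor
    · intro h'; omega
    · intro h'; omega
  · rw [min_eq_right h]
    constructor
    · intro h'; omega
    · intro h'; omega

/-- the sequence satisfies no linear recursion with integer coefficients -/
theorem no_recursion (D : ℕ) (co : Fin D → ℤ) (K : ℕ)
    (h : ∀ k, K ≤ k → (cm (k + D) : ℤ) = ∑ i : Fin D, co i * (cm (k + (i : ℕ)) : ℤ)) : False := by
  -- pigeonhole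
  obtain ⟨x, y, hxy, hst⟩ := Finite.exists_ne_map_eq_of_infinite
    (fun k : ℕ => fun i : Fin D => ((cm (K + 1 + k + i) : ℕ) : ZMod 2))
  wlog hlt : x < y generalizing x y
  · exact this y x hxy.symm hst.symm (by omega)
  have hper : ∀ m, ((cm (K + 1 + x + m) : ℕ) : ZMod 2) = ((cm (K + 1 + y + m) : ℕ) : ZMod 2) := by
    intro m
    induction m using Nat.strong_induction_on with
    | _ m ih =>
      by_cases hm : m < D
      · exact congrFun hst ⟨m, hm⟩
      · obtain ⟨m', rfl⟩ : ∃ m', m = m' + D := ⟨m - D, by omega⟩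
        have hx := h (K + 1 + x + m') (by omega)
        have hy := h (K + 1 + y + m') (by omega)
        have hx' := congrArg (fun z : ℤ => (z : ZMod 2)) hx
        have hy' := congrArg (fun z : ℤ => (z : ZMod 2)) hy
        simp only [Int.cast_natCast, Int.cast_sum, Int.cast_mul] at hx' hy'
        rw [← add_assoc, ← add_assoc, hx', hy']
        refine Finset.sum_congr rfl fun i _ => ?_
        rw [add_assoc (K + 1 + x), add_assoc (K + 1 + y), ih (m' + i) (by have := i.2; omega)]
  set P := y - x with hP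
  have hP0 : 0 < P := by omega
  have hpar : ∀ m, (cm (K + 1 + x + m) % 2 = 1 ↔ cm (K + 1 + x + P + m) % 2 = 1) := by
    intro m
    have h1 := hper m
    have e : K + 1 + x + P + m = K + 1 + y + m := by omega
    rw [e]
    have h2 : cm (K + 1 + x + m) % 2 = cm (K + 1 + y + m) % 2 :=
      (ZMod.natCast_eq_natCast_iff' _ _ 2).1 h1
    rw [h2]
  have hsign : ∀ j, (0 < d (K + x + 1 + P * j) ↔ 0 < d (K + x + 1)) := by
    intro j
    induction j with
    | zero => simp
    | succ j ih =>
      rw [← ih]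
      have h1 := hpar (P * j)
      have e1 : K + 1 + x + P * j = (K + x + P * j) + 1 := by ring
      have e2 : K + 1 + x + P + P * j = (K + x + P + P * j) + 1 := by ring
      rw [e1, e2, cm_parity, cm_parity] at h1
      have e3 : K + x + 1 + P * j = (K + x + P * j) + 1 := by ring
      have e4 : K + x + 1 + P * (j + 1) = (K + x + P + P * j) + 1 := by ring
      rw [e3, e4]
      exact h1.symm
  by_cases h0 : 0 < d (K + x + 1)
  · refine no_const_sign (s := 1) (K + x + 1) P hP0 fun j => ?_
    rw [one_mul]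
    exact_mod_cast (hsign j).2 h0
  · refine no_const_sign (s := -1) (K + x + 1) P hP0 fun j => ?_
    have h1 : ¬ 0 < d (K + x + 1 + P * j) := fun h => h0 ((hsign j).1 h)
    have h2 : d (K + x + 1 + P * j) ≠ 0 := by
      have e3 : K + x + 1 + P * j = (K + x + P * j) + 1 := by ring
      rw [e3]; exact d_ne _
    have h3 : d (K + x + 1 + P * j) < 0 := lt_of_le_of_ne (not_lt.1 h1) h2
    have h4 : (d (K + x + 1 + P * j) : ℝ) < 0 := by exact_mod_cast h3
    linarith

end Pool.Agent.U590.JO
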